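import Pool.Agent.K9h92.BV.Crit

set_option autoImplicit false

/-!
Diffusive scaling of the interface of the weakly biased voter model started from the Heaviside
state: a necessary and sufficient condition on the jump kernel for the convergence of the rescaled
end points of the interface to drifted Brownian motions.
-/

open ENNReal Filter Topology MeasureTheory ProbabilityTheory Pool.Agent.K9h92.BV

namespace Pool.Agent.Results.MP_43b10a_pr.Criterion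

theorem result {a : ℤ → ℝ} (ha : Jump a) :
    -- the criterion
    ((∃ σ μ σ' μ' : ℝ, 0 < σ ∧ 0 < σ' ∧ Conv a lft σ μ ∧ Conv a rgt σ' μ') ↔
      (∑' k : ℤ, (k:ℝ) * a k = 0 ∧
        Tendsto (fun K : ℕ => (K:ℝ) ^ 3 * ∑' k : ℤ, if (K:ℤ) ≤ |k| then a k else 0)
          atTop (𝓝 0))) ∧
    -- the parameters of the limits
    (∑' k : ℤ, (k:ℝ) * a k = 0 →
      Tendsto (fun K : ℕ => (K:ℝ) ^ 3 * ∑' k : ℤ, if (K:ℤ) ≤ |k| then a k else 0) atTop (𝓝 0) →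
      ∀ f : Conf → ℤ, f = lft ∨ f = rgt →
        Conv a f (Real.sqrt (∑' k : ℤ, (k:ℝ) ^ 2 * a k)) (-(∑' k : ℤ, (k:ℝ) ^ 2 * a k) / 2)) ∧
    -- symmetric kernels: each end point separately
    ((∀ k, a (-k) = a k) → ∀ f : Conf → ℤ, f = lft ∨ f = rgt →
      ((∃ σ μ : ℝ, 0 < σ ∧ Conv a f σ μ) ↔
        Tendsto (fun K : ℕ => (K:ℝ) ^ 3 * ∑' k : ℤ, if (K:ℤ) ≤ |k| then a k else 0)
          atTop (𝓝 0))) ∧
    -- kernels which are not centred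
    (∑' k : ℤ, (k:ℝ) * a k ≠ 0 →
      Tendsto (fun K : ℕ => (K:ℝ) ^ 3 * ∑' k : ℤ, if (K:ℤ) ≤ |k| then a k else 0) atTop (𝓝 0) →
      ∀ f : Conf → ℤ, f = lft ∨ f = rgt → ∀ (ε : ℕ → ℝ), (∀ k, 0 < ε k) → (∀ k, ε k < 1) →
      Tendsto ε atTop (𝓝 0) → ∀ {Ω : ℕ → Type*} [∀ k, MeasurableSpace (Ω k)]
      {P : ∀ k, Measure (Ω k)} [∀ k, IsProbabilityMeasure (P k)] {X : ∀ k, ℝ → Ω k → Conf},
      (∀ k, IsBiasedVoter a (ε k) (P k) (X k)) → ∀ t K : ℝ, 0 < t →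
      Tendsto (fun k => P k {ω | |ε k * (f (X k (t / ε k ^ 2) ω) : ℝ)| ≤ K}) atTop (𝓝 0)) ∧
    -- heavy tails: macroscopic jumps
    (∀ (f : Conf → ℤ) (tl : ℕ → ℝ),
      ((f = lft ∧ tl = fun K : ℕ => ∑' k : ℤ, if k ≤ -(K:ℤ) then a k else 0) ∨
        (f = rgt ∧ tl = fun K : ℕ => ∑' k : ℤ, if (K:ℤ) ≤ k then a k else 0)) →
      ¬ Tendsto (fun K : ℕ => (K:ℝ) ^ 3 * tl K) atTop (𝓝 0) →
      ∃ ε : ℕ → ℝ, (∀ k, 0 < ε k) ∧ (∀ k, ε k < 1) ∧ Tendsto ε atTop (𝓝 0) ∧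
        ∀ {Ω : ℕ → Type*} [∀ k, MeasurableSpace (Ω k)] {P : ∀ k, Measure (Ω k)}
          [∀ k, IsProbabilityMeasure (P k)] {X : ∀ k, ℝ → Ω k → Conf},
          (∀ k, IsBiasedVoter a (ε k) (P k) (X k)) → ∀ τ : ℝ, 0 < τ →
          ∃ ρ : ℝ, 0 < ρ ∧ ∀ᶠ k in atTop, ENNReal.ofReal ρ ≤
            P k {ω | ∀ h : ℝ, 0 < h → ∃ s t : ℝ, 0 ≤ s ∧ s ≤ τ ∧ 0 ≤ t ∧ t ≤ τ ∧ |s - t| ≤ h ∧
              1 / 2 ≤ |ε k * (f (X k (s / ε k ^ 2) ω) : ℝ) -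
                ε k * (f (X k (t / ε k ^ 2) ω) : ℝ)|}) ∧
    -- a finite third moment is sufficient for the tail condition
    ((Summable fun k : ℤ => |(k:ℝ)| ^ 3 * a k) →
      Tendsto (fun K : ℕ => (K:ℝ) ^ 3 * ∑' k : ℤ, if (K:ℤ) ≤ |k| then a k else 0) atTop (𝓝 0)) ∧
    -- a centred kernel which violates the tail condition on the left
    (Jump (fun k : ℤ => 1 / (k:ℝ) ^ 4) ∧ ∑' k : ℤ, (k:ℝ) * (1 / (k:ℝ) ^ 4) = 0 ∧
      ¬ Tendsto (fun K : ℕ => (K:ℝ) ^ 3 * ∑' k : ℤ, if k ≤ -(K:ℤ) then 1 / (k:ℝ) ^ 4 else 0)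
        atTop (𝓝 0)) := by
  have hs := s2_pos ha
  have hcm : ∑' k : ℤ, (k:ℝ) * a k = cm a := rfl
  have hs2 : ∑' k : ℤ, (k:ℝ) ^ 2 * a k = s2 a := rfl
  have hLt : Tendsto (fun K : ℕ => (K:ℝ) ^ 3 * ∑' k : ℤ, if (K:ℤ) ≤ |k| then a k else 0)
    atTop (𝓝 0) ↔ Light a := Iff.rfl
  rw [hcm, hs2, hLt]
  refine ⟨⟨?_, ?_⟩, ?_, ?_, ?_, ?_, light_of_third ha, a4_jump, a4_cm, a4_heavy⟩
  · rintro ⟨σ, μ, σ', μ', _, _, h1, h2⟩
    have hL := light_of ha (conv_left ha h1) (conv_right ha h2)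
    exact ⟨conv_centred ha hL (Or.inl rfl) h1, hL⟩
  · rintro ⟨hc, hL⟩
    exact ⟨_, _, _, _, Real.sqrt_pos.mpr hs, Real.sqrt_pos.mpr hs, conv_of ha hc hL (Or.inl rfl),
      conv_of ha hc hL (Or.inr rfl)⟩
  · intro hc hL f hf
    exact conv_of ha hc hL hf
  · intro hsym f hf
    constructor
    · rintro ⟨σ, μ, _, h⟩
      rcases hf with rfl | rfl
      · have h1 := conv_left ha h
        refine light_of ha h1 (h1.congr fun K => ?_)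
        rw [tl_symm hsym]
      · have h1 := conv_right ha h
        refine light_of ha (h1.congr fun K => ?_) h1
        rw [tl_symm hsym]
    · intro hL
      exact ⟨_, _, Real.sqrt_pos.mpr hs, conv_of ha (cm_symm hsym) hL hf⟩
  · intro hc hL f hf ε h0 h1 hlim Ω _ P _ X hX t K ht
    obtain ⟨x, e, S⟩ := Seqs.of ha h0 h1 hlim hX
    exact S.escape' f (S.close2 hL hf) ht hc
  · rintro f tl (⟨rfl, rfl⟩ | ⟨rfl, rfl⟩) h
    · exact heavy_left ha h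
    · exact heavy_right ha h

end Pool.Agent.Results.MP_43b10a_pr.Criterion
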